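import Pool.Agent.H91.Koren

set_option autoImplicit false

open H91.Koren in
theorem Pool.Agent.Results.MP_ce4856_an.Q1False.result :
    ∀ p : ℝ, 0 < p → ∃ q c : ℝ, p < q ∧ max (H91.Koren.kap p) (H91.Koren.kap q) < c ∧ c < 1 ∧
      H91.Koren.F q c ≤ H91.Koren.F p c :=
  main.2
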